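import Mathlib
import Pool.Agent.Lib.MP_da270e_gt.SA.Main

/-!
The sharp angle between two segments with common end points on a Riemannian sphere is `4π/5`.
-/

set_option autoImplicit false

namespace Pool.Agent.Results.MP_da270e_gt.SharpAngle

open Pool.Agent.Lib.MP_da270e_gt.Stmt

theorem result (θ : ℝ) : List.TFAE [θ ≤ 4 * Real.pi / 5,
    ∀ g : E → Fin 3 → Fin 3 → ℝ, IsMetric g → ∃ x y : E, Wide g θ x y ∧ Critical g x y,
    ∀ (g₀ : E → Fin 3 → Fin 3 → ℝ) (δ : ℝ), IsMetric g₀ → 0 < δ →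
      ∃ g : E → Fin 3 → Fin 3 → ℝ, IsMetric g ∧ C1Close δ g g₀ ∧ ∃ x y : E, Wide g θ x y] :=
  Pool.Agent.Lib.MP_da270e_gt.SA.main θ

end Pool.Agent.Results.MP_da270e_gt.SharpAngle
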